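import Pool.Agent.X86.DS.Vec

/-! # The trichotomy for dimension spectra of conformal iterated function systems fails -/

set_option autoImplicit false

open Set Filter Topology MeasureTheory
open scoped ENNReal NNReal

namespace Pool.Agent.Results.MP_b5d711_an.NoTrichotomy

open Pool.Agent.X86.DS

/-- The dimension spectrum `{dim_H J_F : ∅ ≠ F ⊆ E}` of a conformal iterated function system. -/
noncomputable def DS {d : ℕ} {E : Type} (S : CIFS d E) : Set ℝ :=
  {t | ∃ F : Set E, F.Nonempty ∧ t = (dimH (S.J F)).toReal}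

/-- Type I: a union of finitely many intervals (possibly degenerate or unbounded). -/
def TypeI (F : Set ℝ) : Prop :=
  ∃ (n : ℕ) (I : Fin n → Set ℝ), (∀ i, (I i).OrdConnected) ∧ F = ⋃ i, I i

/-- Type II: Hausdorff dimension zero. -/
def TypeII (F : Set ℝ) : Prop := dimH F = 0

/-- Type III: there is `c` with `0 < c < sup F` such that `dim_x F = min (1, c / x)` for every
`x ∈ F` (with value `1` at `x = 0`). -/
def TypeIII (F : Set ℝ) : Prop :=
  ∃ c : ℝ, 0 < c ∧ c < sSup F ∧
    ∀ x ∈ F, localDim F x = min 1 (ENNReal.ofReal c / ENNReal.ofReal x)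

/-- **In every dimension `d ≥ 1` there is a conformal iterated function system with infinite
alphabet whose dimension spectrum is of none of the three types.** -/
theorem _root_.Pool.Agent.Results.MP_b5d711_an.NoTrichotomy.result (d : ℕ) (hd : 1 ≤ d) :
    ∃ (E : Type) (S : CIFS d E), Infinite E ∧
      ¬ TypeI (DS S) ∧ ¬ TypeII (DS S) ∧ ¬ TypeIII (DS S) := by
  obtain ⟨E, hE, _, D, h1, h2, h3, h4⟩ := exists_example
  obtain ⟨S, h5, h6⟩ := h4 d hd
  have hD : DS S = D := by
    ext x
    constructor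
    · rintro ⟨F, _, rfl⟩; exact h5 F
    · intro hx
      exact h6 x hx
  rw [← hD] at h1 h2 h3
  have hint : ∀ x y : ℝ, x < y → Icc x y ⊆ DS S → x ≤ 1 / 2 := by
    intro x y hxy hsub
    by_contra hx
    push Not at hx
    have e1 := h2 x hx
    have e2 : dimH (Ioo x y) = 1 := by
      have := Real.dimH_of_nonempty_interior (E := ℝ) (s := Ioo x y)
        (by rw [isOpen_Ioo.interior_eq]; exact nonempty_Ioo.mpr hxy)
      simpa using this
    have e3 : dimH (Ioo x y) ≤ dimH (DS S ∩ Ici x) :=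
      dimH_mono fun z hz => ⟨hsub ⟨hz.1.le, hz.2.le⟩, hz.1.le⟩
    rw [e1, e2] at e3
    exact absurd e3 (by simp)
  refine ⟨E, S, hE, ?_, ?_, ?_⟩
  · rintro ⟨n, I, hI, hF⟩
    have hfin : (DS S ∩ Ioi (1 / 2)).Finite := by
      have : DS S ∩ Ioi (1 / 2) = ⋃ i, (I i ∩ Ioi (1 / 2)) := by
        rw [hF, iUnion_inter]
      rw [this]
      apply finite_iUnion
      intro i
      apply Set.Subsingleton.finite
      have key : ∀ x y, x ∈ I i ∩ Ioi (1 / 2) → y ∈ I i ∩ Ioi (1 / 2) → ¬ x < y := by
        intro x y hx hy hxy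
        have := hint x y hxy (((hI i).out hx.1 hy.1).trans
          (by rw [hF]; exact subset_iUnion I i))
        exact absurd hx.2 (not_lt.mpr this)
      intro x hx y hy
      exact le_antisymm (not_lt.mp (key y x hy hx)) (not_lt.mp (key x y hx hy))
    have hne : (DS S ∩ Ioi (1 / 2)).Nonempty := by
      obtain ⟨x, hx, a1, _⟩ := h3 1 one_pos
      exact ⟨x, hx, a1⟩
    obtain ⟨m, hm, hmin⟩ := exists_min_image _ id hfin hne
    have hm2 : (1 / 2 : ℝ) < m := hm.2
    obtain ⟨x, hx, a1, a2⟩ := h3 ((m - 1 / 2) / 2) (by linarith)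
    have := hmin x ⟨hx, a1⟩
    simp only [id] at this
    linarith
  · intro h
    have e2 : dimH (Icc (0:ℝ) (1 / 2)) = 1 := by
      have := Real.dimH_of_nonempty_interior (E := ℝ) (s := Icc (0:ℝ) (1 / 2))
        (by rw [interior_Icc]; exact nonempty_Ioo.mpr (by norm_num))
      simpa using this
    have e3 := dimH_mono h1
    rw [e2, h] at e3
    exact absurd e3 (by simp)
  · rintro ⟨c, hc, _, h⟩
    obtain ⟨x, hx, a1, _⟩ := h3 1 one_pos
    have e1 := h x hx
    rw [localDim_high h2 a1] at e1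
    have e2 : 0 < ENNReal.ofReal c / ENNReal.ofReal x :=
      ENNReal.div_pos (ENNReal.ofReal_pos.mpr hc).ne' ENNReal.ofReal_ne_top
    have e3 : (0:ℝ≥0∞) < min 1 (ENNReal.ofReal c / ENNReal.ofReal x) := lt_min one_pos e2
    rw [← e1] at e3
    exact lt_irrefl _ e3

end Pool.Agent.Results.MP_b5d711_an.NoTrichotomy
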